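import Pool.Agent.Helper43.GD.St

/-!
PROJECT AY (MP_b3ce06_al, fourth hand-in; Q1: which simple groups are composition factors of finite
groups of deficiency zero).

THEOREM.  For every prime `p ≥ 5` and every `k ≥ 0` the group `PSL(2, p^(p^(k+1)))` is a composition
factor of a finite group of deficiency zero, namely, with `ρ = p^(p^k)`, `1 - 6κ = ± p`, of
`⟨a, w, t | (a w^(1-2κ))³ = w², w⁻¹ t w = t^(-ρ), t^(-ρ²) a t^(ρ²) = a t⁻¹ a t⟩`.
(For `p = 5`, `k = 0` coset enumeration confirms the index `5⁵ + 1` over `⟨a, t, w²⟩`.)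

This file is PART II: the ring `L` (`RgA`: generated by a unit `x` with `2 x^ρ = 2x + 1`, of
characteristic `p`) and finiteness of all groups with a system over `L` for which `1` and `x` are Weyl
units (`FinP`, the conclusion is StINA).  Notation: project GD, `Pool/Agent/Helper43/GD/Defs.lean`
(`Sys`, `om`, `Weyl`, `IsTor`, `Fr`, `Q.In`, `Q.S`, `Gn`, `FinP`, `IsHat`); the statements StRR, StST,
StP1, StP2, StP3, StHAT, StCT, StRL, StCEL of GD/St.lean are proved (GD/All.lean: pRR, pP1, ...; do not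
import All.lean, take them as hypotheses).  Polynomials are evaluated at `x` by a ring homomorphism
`ev : (ZMod p)[X] →+* L` with `ev X = x`.  `m = p^(k+1)`, `q = p^m`, `ρ = p^(p^k)`.

All modules are INDEPENDENT (the statements they use are hypotheses: prove
`theorem hXX (h1 : StYY) ... : StXX`).  In a module file: `import Pool.Agent.Helper50.AY.St`.
Useful everywhere (rule MULT): if `N` is an additive subgroup of a finite ring `L`, then
`M = {z : ∀ y ∈ N, z y ∈ N}` is a subring, and if a unit of `L` is in `M` then so is its inverse (a power).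
-/

set_option autoImplicit false

namespace Pool.Agent.Helper50.AY

open Pool.Agent.Helper43.GD Polynomial

/-- `L` is finite and `x² - 1` is a unit -/
structure Rf (L : Type) [CommRing L] (x : Lˣ) : Prop where
  fin : Finite L
  un : IsUnit ((x : L) ^ 2 - 1)

/-- Artin-Schreier rings -/
structure RgA (L : Type) [CommRing L] (p k : ℕ) (x : Lˣ) : Prop where
  fin : Finite L
  prime : p.Prime
  five : 5 ≤ p
  char : (p : L) = 0
  as : 2 * (x : L) ^ (p ^ (p ^ k)) = 2 * (x : L) + 1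
  gn : Gn (x : L)

/-- MODULE RA (110 lines).  PROOF.  If `L` is trivial everything is trivial, else `CharP L p` and
`θ(y) = y^ρ` (`ρ = p^(p^k)`, iterated Frobenius) is a ring homomorphism with `θ(n) = n` for natural
numbers.  (1) induction: `θ(2x + j) = 2x^ρ + j = 2x + (j+1)`.  (4) `p` is odd, `2 ((p+1)/2) = 1`.
(2) `ρ^p = p^(p^k p) = q`; (1) with `j = p`: `2x^q = 2x`, so `x^q = x`; `{y : y^q = y}` is an additive
subgroup with `1`, stable under `x`: `Gn`.  (3) `n = ρ^(2i)` in (1).  (5) `x² - 1 = (x+1)(x+(p-1))`, both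
powers of `x`. -/
def StRA : Prop :=
  ∀ (L : Type) [CommRing L] (p k : ℕ) (x : Lˣ), RgA L p k x →
    (∀ j : ℕ, 2 * (x : L) ^ ((p ^ (p ^ k)) ^ j) = 2 * (x : L) + (j : L)) ∧
    (∀ y : L, y ^ (p ^ (p ^ (k + 1))) = y) ∧
    (∀ i : ℕ, ∃ n : ℕ, (x : L) ^ n = (x : L) + (i : L)) ∧
    IsUnit (2 : L) ∧ Rf L x

/-- MODULE EV (50 lines).  PROOF.  `L` trivial: `Polynomial.eval₂RingHom` of the zero map is not a ring
homomorphism in general, but for trivial `L` every map is one.  Else `CharP L p`, `ZMod.castHom` and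
`eval₂RingHom`.  Surjective: the range is an additive subgroup with `1`, stable under `x`: `Gn`. -/
def StEV : Prop :=
  ∀ (L : Type) [CommRing L] (p k : ℕ) (x : Lˣ), RgA L p k x →
    ∃ ev : (ZMod p)[X] →+* L, ev X = (x : L) ∧ Function.Surjective ev

/-- MODULE ND (90 lines).  PROOF.  Suppose `f ∣ 2X^ρ - 2X - 1`.  `K = AdjoinRoot f` is a field with
`p^d` elements, `d = natDegree f ≥ 1`, the root `β` satisfies `2β^ρ = 2β + 1`.  Let `Fr` be the Frobenius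
map of `K`: `Fr^d β = β` (`FiniteField.pow_card`), and `θ = Fr^(p^k)` has `2θ^j β = 2β + j` (as in RA), so
`Fr^(p^(k+1)) β = θ^p β = β`.  Periodic points: `Fr^g β = β` for `g = gcd(d, p^(k+1))`
(`Function.IsPeriodicPt.gcd`).  `g = p^i`, `p^i ≤ d < p^(k+1)`, so `i ≤ k`, `g ∣ p^k`, `β^ρ = β`, `1 = 0` in
`K`: contradiction. -/
def StND : Prop :=
  ∀ (p : ℕ) [Fact p.Prime] (k : ℕ), 5 ≤ p → ∀ f : (ZMod p)[X], Irreducible f →
    f.natDegree < p ^ (k + 1) → ¬ f ∣ (C 2 * X ^ (p ^ (p ^ k)) - C 2 * X - 1)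

/-- MODULE UN1 (70 lines, uses ND).  PROOF.  For irreducible `f`: `P₀ = 2X^ρ - 2X - 1` has `ev P₀ = 0`
(RgA.as), `f` and `P₀` are coprime (ND), `uf + vP₀ = 1`, `ev u * ev f = 1`.  In general induction on the
factorization (a nonzero constant is a unit of `(ZMod p)[X]`; factors have degree `≤ natDegree f`). -/
def StUN1 : Prop :=
  ∀ (L : Type) [CommRing L] (p : ℕ) [Fact p.Prime] (k : ℕ) (x : Lˣ), RgA L p k x →
    ∀ ev : (ZMod p)[X] →+* L, ev X = (x : L) →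
    ∀ f : (ZMod p)[X], f ≠ 0 → f.natDegree < p ^ (k + 1) → IsUnit (ev f)

/-- MODULE CMB2 (90 lines, uses P3; compare the proof of GD.StCMB in
`Pool/Agent/Helper80/GD/M_CMB.lean`).  PROOF.  `N = {y : om(u) E(u y) om(u)⁻¹ = F(-(y/u))}` is an
additive subgroup of `L`, stable under every `σ ∈ Ŝ(u)` (`om(u) h(σ) = h(σ)⁻¹ om(u)`).  It contains the unit
`y₀ = (1-s)(1-s')` by P3.  `{z : z y₀ ∈ N}` contains `1` and is stable under all `σ ∈ Ŝ(u)`, so it is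
everything by the last hypothesis; so `N = L` and `u` is Weyl as in GD.StCMB. -/
def StCMB2 : Prop :=
  ∀ (L A : Type) [CommRing L] [Group A] (Q : Fr L A) (u s s' : Lˣ), Q.S u s → Q.S u⁻¹ s' →
    IsUnit ((1 - (s : L)) * (1 - (s' : L))) →
    (∀ N : AddSubgroup L, (1 : L) ∈ N → (∀ σ : Lˣ, Q.S u σ → ∀ y ∈ N, (σ : L) * y ∈ N) →
      ∀ y, y ∈ N) → u ∈ Q.U

/-- MODULE GT (40 lines, uses P2 CMB2).  PROOF.  Let `c ∈ U`, `c = 1 - σ`.  P2 with
`v = c⁻¹ u⁻¹` (`v ((1-σ) u) = 1`): `σ ∈ Ŝ(c⁻¹u⁻¹) = Ŝ(u⁻¹)` (`S_smul_iff`).  CMB2 with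
`s = s' = σ`. -/
def StGT : Prop :=
  ∀ (L A : Type) [CommRing L] [Group A] (Q : Fr L A) (u σ : Lˣ), Q.S u σ →
    Q.In (1 - (σ : L)) →
    (∀ N : AddSubgroup L, (1 : L) ∈ N → (∀ σ : Lˣ, Q.S u σ → ∀ y ∈ N, (σ : L) * y ∈ N) →
      ∀ y, y ∈ N) → u ∈ Q.U

/-- MODULE CU (110 lines, uses P1 GT RA).  PROOF.  All `x + ev(C j)`, `j : ZMod p`, are in `U` (RA(3)
with `i = j.val`).  Let `u = 1/ev(C c)` (a unit: `ev(C c) ev(C c⁻¹) = 1`).
`σ_j = (x+j+c)/(x+j) ∈ U`, `(σ_j - 1) u = 1/(x+j) ∈ U`, P1: `σ_j ∈ Ŝ(u)`.  The product of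
`σ_(ic)`, `i < n`, is `(x + nc)/x` (induction, `S_mul`); `n = (c⁻¹).val`: `σ = (x+1)/x ∈ Ŝ(u)`.
`1 - σ = -1/x ∈ U`.  GT: if `N ∋ 1` is stable under `Ŝ(u)`, then (MULT) the multiplier ring `M` contains
`σ`, `σ - 1 = 1/x`, so `x`; `Gn x`: `N = L`.  So `u ∈ U`. -/
def StCU : Prop :=
  ∀ (L A : Type) [CommRing L] [Group A] (Q : Fr L A) (p : ℕ) [Fact p.Prime] (k : ℕ) (x : Lˣ),
    RgA L p k x → x ∈ Q.U → ∀ ev : (ZMod p)[X] →+* L, ev X = (x : L) →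
    ∀ c : ZMod p, c ≠ 0 → Q.In (ev (C c))

/-- MODULE UT1 (90 lines, uses P1).  PROOF.  `f` is prime, so `r = (gh) % f ≠ 0`, `deg r < deg f`,
`gh = f q + r` (`EuclideanDomain.div_add_mod`).  `σ = g h / r ∈ U` (values at `x`).  If `q = 0` then
`σ = 1` (`Q.S_one`).  Else `natDegree q ≤ 2(d-1) - d < d`, so `ev q ∈ U`, and `v = q/r ∈ U` satisfies
`v = (σ - 1) u`, as `u = 1/f`: P1. -/
def StUT1 : Prop :=
  ∀ (L A : Type) [CommRing L] [Group A] (Q : Fr L A) (p : ℕ) [Fact p.Prime] (x : Lˣ)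
    (ev : (ZMod p)[X] →+* L), ev X = (x : L) →
    ∀ f : (ZMod p)[X], Irreducible f →
      (∀ g : (ZMod p)[X], g ≠ 0 → g.natDegree < f.natDegree → Q.In (ev g)) →
    ∀ u : Lˣ, (u : L) * ev f = 1 →
    ∀ g h : (ZMod p)[X], g ≠ 0 → h ≠ 0 → g.natDegree < f.natDegree → h.natDegree < f.natDegree →
    ∀ σ : Lˣ, (σ : L) * ev ((g * h) % f) = ev g * ev h → Q.S u σ

/-- MODULE UT2 (70 lines, uses UT1).  PROOF.  Induction on `n`: `g^(n+1) % f = ((g^n % f) * g) % f`,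
`g^n % f ≠ 0` (`f` prime) and its value at `x` is a unit in `U`; `σ_(n+1) = σ_n τ` with `τ` from UT1 for
`(g^n % f, g)`; `Q.S_mul`.  Case `n = 0`: `1 % f = 1`, `σ = 1`. -/
def StUT2 : Prop :=
  ∀ (L A : Type) [CommRing L] [Group A] (Q : Fr L A) (p : ℕ) [Fact p.Prime] (x : Lˣ)
    (ev : (ZMod p)[X] →+* L), ev X = (x : L) →
    ∀ f : (ZMod p)[X], Irreducible f →
      (∀ g : (ZMod p)[X], g ≠ 0 → g.natDegree < f.natDegree → Q.In (ev g)) →
    ∀ u : Lˣ, (u : L) * ev f = 1 →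
    ∀ g : (ZMod p)[X], g ≠ 0 → g.natDegree < f.natDegree → ∀ (n : ℕ) (σ : Lˣ),
      (σ : L) * ev ((g ^ n) % f) = ev g ^ n → Q.S u σ

/-- MODULE UT3 (150 lines, uses UT2 GT ND UN1 RA).  PROOF.  `ρ = p^(p^k)`, `h = X^ρ % f`,
`u = 1/f(x)` (UN1).  For `i = 0, 1` let `g_i = X + C i` (degree `1 < d`):
`g_i^ρ = X^ρ + C i` (Frobenius), so `g_i^ρ % f = h + C i`, nonzero as `f` is prime and does not divide
`g_i`; UT2: `σ_i = (x^ρ + i)/(h(x) + i) ∈ Ŝ(u)`.  `1 - σ_0 = (h(x) - x^ρ)/h(x)` and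
`2 (h(x) - x^ρ) = ev(2h - 2X - 1)`; the polynomial `2h - 2X - 1` is not zero (else
`f ∣ 2X^ρ - 2X - 1`, ND) and of degree `< d`, so its value is in `U`; `2 ∈ U` (value of the constant `C 2`,
degree `0 < d`).  So `Q.In (1 - σ_0)`.  GT: let `N ∋ 1` be stable under `Ŝ(u)`, `M` its multiplier ring
(MULT).  `λ_i = 1/(1-σ_i) = (h(x)+i)/(h(x)-x^ρ) ∈ M`, `κ = λ_1 - λ_0 = 1/(h(x)-x^ρ) ∈ M`,
`h(x) = λ_0/κ ∈ M`, `x^ρ = h(x) - 1/κ ∈ M`, `2x = 2x^ρ - 1 ∈ M`, `x ∈ M` (`2` is a unit); `Gn x`: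
`N = L`.  So `u ∈ U`, `f(x) = u⁻¹ ∈ U`. -/
def StUT3 : Prop :=
  ∀ (L A : Type) [CommRing L] [Group A] (Q : Fr L A) (p : ℕ) [Fact p.Prime] (k : ℕ) (x : Lˣ),
    RgA L p k x → x ∈ Q.U → ∀ ev : (ZMod p)[X] →+* L, ev X = (x : L) →
    ∀ f : (ZMod p)[X], Irreducible f → 2 ≤ f.natDegree → f.natDegree < p ^ (k + 1) →
      (∀ g : (ZMod p)[X], g ≠ 0 → g.natDegree < f.natDegree → Q.In (ev g)) → Q.In (ev f)

/-- MODULE UT (60 lines, uses CU UT3 RA).  PROOF.  Strong induction on `natDegree f`.  Degree `0`: CU.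
Degree `1`: `f = C c (X + C j)`, CU and RA(3).  Degree `≥ 2`: irreducible: UT3; reducible: a product of
two nonzero polynomials of smaller degree. -/
def StUT : Prop :=
  ∀ (L A : Type) [CommRing L] [Group A] (Q : Fr L A) (p : ℕ) [Fact p.Prime] (k : ℕ) (x : Lˣ),
    RgA L p k x → x ∈ Q.U → ∀ ev : (ZMod p)[X] →+* L, ev X = (x : L) →
    ∀ f : (ZMod p)[X], f ≠ 0 → f.natDegree < p ^ (k + 1) → Q.In (ev f)

/-- MODULE SPL (60 lines, uses RR).  PROOF.  `b = (z-1)/a`, `s_n = Σ_(i<n) z^i`, so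
`1 + (a s_n) b = z^n`.  Claim: `E(a s_n) F(b) = F(z^(-n) b) h(z^n)² E(z^(-n) a s_n)`.  `n = 0` clear.
Step: `E(a s_(n+1)) F(b) = E(a z^n) F(z^(-n) b) h(z^n)² E(z^(-n) a s_n)`, RR for
`(a z^n, z^(-n) b)`, `d = z`: `= F(z^(-n-1) b) h(z)² E(a z^(n-1)) h(z^n)² E(z^(-n) a s_n)
= F(z^(-n-1) b) h(z^(n+1))² E(a z^(-n-1)) E(z^(-n) a s_n)` and
`z^(-n-1)(1 + z s_n) = z^(-n-1) s_(n+1)`.  For `n = N`: `h(1) = 1`. -/
def StSPL : Prop :=
  ∀ (L A : Type) [CommRing L] [Group A] (Q : Fr L A) (z a : Lˣ) (N : ℕ), z ∈ Q.U → a ∈ Q.U →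
    z ^ N = 1 →
    Q.E ((a : L) * ∑ i ∈ Finset.range N, (z : L) ^ i) * Q.F (((z : L) - 1) * ((a⁻¹ : Lˣ) : L)) =
      Q.F (((z : L) - 1) * ((a⁻¹ : Lˣ) : L)) * Q.E ((a : L) * ∑ i ∈ Finset.range N, (z : L) ^ i)

/-- MODULE POL (30 lines).  PROOF.  Induction on `n`: the differences
`y^j (y+1)^(n-j) - y^(j+1) (y+1)^(n-j-1) = y^j (y+1)^(n-1-j)` (`j < n`) are in `N`, so `y^i ∈ N` for
`i ≤ n-1`, and `y^n ∈ N` (`j = n`). -/
def StPOL : Prop :=
  ∀ (L : Type) [CommRing L] (y c : L) (N : AddSubgroup L) (n : ℕ),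
    (∀ j ≤ n, c * (y ^ j * (y + 1) ^ (n - j)) ∈ N) → ∀ i ≤ n, c * y ^ i ∈ N

/-- MODULE MXI (110 lines, uses RA EV UN1).  PROOF.  `P` = a maximal ideal (`L` nontrivial), `K = L/P`, a
finite field.  `ev` from EV.  The kernel of `(ZMod p)[X] → K` is generated by a monic irreducible `P₁`
(`f = minpoly (ZMod p) x̄`, or the generator of the principal maximal ideal).  `natDegree P₁ ≥ m`: else `ev P₁`
is a unit (UN1), but it is in `P`.  `natDegree P₁ ≤ m`: `K` has `p^(natDegree P₁)` elements, all of them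
satisfy `y^q = y`, `q = p^m` (RA(2)), and a field has at most `q` such elements.  If `ev P₁ = 0` then
`L` is a quotient of the field `(ZMod p)[X]/(P₁)`, so `L` is a field. -/
def StMXI : Prop :=
  ∀ (L : Type) [CommRing L] (p : ℕ) [Fact p.Prime] (k : ℕ) (x : Lˣ), RgA L p k x →
    Nontrivial L → ∀ ev : (ZMod p)[X] →+* L, ev X = (x : L) → Function.Surjective ev →
    ∃ P₁ : (ZMod p)[X], P₁.Monic ∧ Irreducible P₁ ∧ P₁.natDegree = p ^ (k + 1) ∧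
      ¬ IsUnit (ev P₁) ∧ (ev P₁ = 0 → IsField L)

/-- MODULE SPG (170 lines, uses SPL POL MXI UT RA EV).  PROOF.  `m = p^(k+1)`, `q = p^m`, `P₁` from MXI,
`π = ev P₁`, nonzero, not a unit.  `e = π^(q-1)` is idempotent, `π e = π`, `e ≠ 0, 1`; `ε = 1 - e`,
`ε π = 0`.  For `j < m` let `G_j = X^(m-j) (X+1)^j` (monic, degree `m`), `g_j = G_j - P₁`: degree `< m`, not
zero (`X ∣ G_j`, `P₁` irreducible of degree `m ≥ 2`), so `ev g_j ∈ U` (UT), `ev G_j ∈ U`.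
`z = G_j/g_j ∈ U` (values), `z^(q-1) = 1` (RA(2)).  For `a ∈ U` use SPL with `z`, `α = a/g_j`,
`N = q - 1`: `(z-1)/α = π/a`; `s = Σ z^i`: `z ε = ε` so `s ε = (q-1) ε = -ε`; `(z-1) s = 0`, so
`π s = 0`, `e s = 0`; so `s = -ε` and `α s = - ε a/g_j = - ε a/G_j` (`ε g_j = ε G_j`).
So (*) `E(ε a/G_j)` commutes with `F(π/a)`, for all `a ∈ U`, `j < m`.  Take `a = x^(-i)`:
`B_i = {α : E(α) commutes with F(π x^i)}` is an additive subgroup; `N = {y : υ⁻¹ y ∈ B_i}`,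
`υ = x^(i+m) (x+1)^(m-1)`, contains `ε x^j (x+1)^(m-1-j)`, `j ≤ m-1`.  POL: `ε x^j ∈ N` for `j ≤ m-1`.
`ε L ⊂ N`: every `y` is `ev g`, `g = P₁ q' + r`, `ε y = ε ev r`, a sum of integer multiples of the
`ε x^j`.  So `ε L = ε υ⁻¹ L ⊂ B_i`.  `F(π y)`, all `y` (`Gn x`); `(1-ε) b = π (π^(q-2) b)`.  Second
claim: conjugate by `w` (`Q.w_E`, `Q.w_F`). -/
def StSPG : Prop :=
  ∀ (L A : Type) [CommRing L] [Group A] (Q : Fr L A) (p : ℕ) [Fact p.Prime] (k : ℕ) (x : Lˣ),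
    RgA L p k x → x ∈ Q.U → Nontrivial L → ¬ IsField L →
    ∃ ε : L, ε ^ 2 = ε ∧ ε ≠ 0 ∧ ε ≠ 1 ∧
      (∀ a b : L, Q.E (ε * a) * Q.F ((1 - ε) * b) = Q.F ((1 - ε) * b) * Q.E (ε * a)) ∧
      (∀ a b : L, Q.E ((1 - ε) * a) * Q.F (ε * b) = Q.F (ε * b) * Q.E ((1 - ε) * a))

/-- MODULE SDA (150 lines; the proof of GD.StSD in `Pool/Agent/Helper84/GD/M_SD.lean` with `RgA` for
`Rg`: `L' = L ⧸ (1-ε)`; `RgA L' p k x'` is clear, all conditions pass to quotients). -/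
def StSDA : Prop :=
  ∀ (L A : Type) [CommRing L] [Group A] (s : Sys L A) (p k : ℕ) (x : Lˣ), RgA L p k x →
    s.Weyl 1 → s.Weyl x →
    ∀ ε : L, ε ^ 2 = ε → ε ≠ 1 →
      (∀ (L' : Type) [CommRing L'] (x' : L'ˣ), RgA L' p k x' → Nat.card L' < Nat.card L →
        FinP L' x') →
      (∀ a b : L, s.E (ε * a) * s.F ((1 - ε) * b) = s.F ((1 - ε) * b) * s.E (ε * a)) →
      (∀ a b : L, s.E ((1 - ε) * a) * s.F (ε * b) = s.F (ε * b) * s.E ((1 - ε) * a)) →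
      Finite (Subgroup.closure (Set.range (fun a => s.E (ε * a)) ∪ Set.range (fun a => s.F (ε * a))))

/-- MODULE SEA (90 lines, uses SPG SDA; compare `Pool/Agent/Helper67/GD/M_SE.lean`).  PROOF.  `ε` from
SPG.  SDA with `ε` and with `1-ε` (`1-ε ≠ 1`) gives finite subgroups `G₁, G₂`; they commute elementwise
and `Q.gp` is contained in the finite subgroup `G₁ G₂`. -/
def StSEA : Prop :=
  ∀ (L A : Type) [CommRing L] [Group A] (Q : Fr L A) (p : ℕ) [Fact p.Prime] (k : ℕ) (x : Lˣ),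
    RgA L p k x → x ∈ Q.U → Nontrivial L → ¬ IsField L →
    (∀ (L' : Type) [CommRing L'] (x' : L'ˣ), RgA L' p k x' → Nat.card L' < Nat.card L →
        FinP L' x') → Finite Q.gp

/-- MODULE FLD (60 lines, uses UT MXI EV).  PROOF.  `ev`, `P₁` from EV, MXI; `ev P₁` is a nonunit of the
field, so `ev P₁ = 0`.  A unit `u` is `ev g`, `g = P₁ q' + r` (`r = g %ₘ P₁`), `u = ev r`, `r ≠ 0` of degree
`< m`: UT. -/
def StFLD : Prop :=
  ∀ (L A : Type) [CommRing L] [Group A] (Q : Fr L A) (p : ℕ) [Fact p.Prime] (k : ℕ) (x : Lˣ),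
    RgA L p k x → x ∈ Q.U → IsField L → ∀ u : Lˣ, u ∈ Q.U

/-- MODULE UNA (140 lines; the proof of GD.StUN in `Pool/Agent/Helper48/GD/M_UN.lean`; the only change:
`-1` is Weyl because `1` is: `om(-1) = om(1)⁻¹` (`Sys.om_neg`)). -/
def StUNA : Prop :=
  ∀ (L H : Type) [CommRing L] [Group H] (x : Lˣ) (s : Sys L H), Rf L x → IsHat x s →
    s.Weyl (-1) ∧ (∀ u v, s.Weyl u → s.Weyl v → s.Weyl (u * v)) ∧ (∀ u, s.Weyl u → s.Weyl u⁻¹) ∧
    ∀ u, s.Weyl u → ∃ α : MulAut H, (∀ a, α (s.E a) = s.E ((u : L) * a)) ∧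
      (∀ b, α (s.F b) = s.F (((u⁻¹ : Lˣ) : L) * b))

/-- MODULE PFA (60 lines; compare `Pool/Agent/Helper30/GD/M_PF.lean`).  PROOF.  `k = om(x) om(1)⁻¹` has
parameter `x²`; `E((x²-1)a) = k E(a) k⁻¹ E(a)⁻¹` is a commutator and `x² - 1` is a unit;
`F((x⁻²-1)b) = k F(b) k⁻¹ F(b)⁻¹`, `x⁻² - 1 = -x⁻²(x²-1)` is a unit. -/
def StPFA : Prop :=
  ∀ (L H : Type) [CommRing L] [Group H] (x : Lˣ) (s : Sys L H), Rf L x →
    s.Weyl 1 → s.Weyl x → s.gp = ⊤ → commutator H = ⊤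

/-- MODULE WMA (150 lines; the proof of GD.StWM in `Pool/Agent/Helper21/GD/M_WM.lean`; there `z(x²a) =
z(a)`, so `z((x²-1)a) = 1`; now `x² - 1` is a unit by `Rf`). -/
def StWMA : Prop :=
  ∀ (L H : Type) [CommRing L] [Group H] (x : Lˣ) (s : Sys L H), Rf L x →
    s.Weyl 1 → s.Weyl x → s.gp = ⊤ → commutator H = ⊤ → ∀ u : Lˣ,
    (∀ a, MulAut.conj (s.om u * s.E a * (s.om u)⁻¹) =
      MulAut.conj (s.F (-(((u⁻¹ : Lˣ) : L) * ((u⁻¹ : Lˣ) : L) * a)))) →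
    (∀ b, MulAut.conj (s.om u * s.F b * (s.om u)⁻¹) =
      MulAut.conj (s.E (-((u : L) * (u : L) * b)))) → s.Weyl u

/-- MODULE AUA (80 lines, uses UNA PFA WMA and GD.StCT; the proof of GD.StAU in
`Pool/Agent/Helper98/GD/M_AU.lean`). -/
def StAUA : Prop :=
  ∀ (L H : Type) [CommRing L] [Group H] (x : Lˣ) (s : Sys L H), Rf L x → IsHat x s →
    ∃ Q : Fr L (MulAut H), x ∈ Q.U ∧ (∀ a, Q.E a = MulAut.conj (s.E a)) ∧
      (∀ b, Q.F b = MulAut.conj (s.F b))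

/-- MODULE INA (90 lines, uses GD.StHAT GD.StCEL PFA AUA SEA FLD RA; compare
`Pool/Agent/Helper57/GD/M_IN.lean`).  PROOF.  Strong induction on `Nat.card L` (`p, k` fixed).  `L` trivial:
`E(a) = E(0) = 1 = F(b)`.  Otherwise the universal `s : Sys L H` (HAT), `Q` (AUA).  If `L` is not a field:
`Q.gp` is finite by SEA and induction.  If `L` is a field: FLD and CEL (`L` is local, `2` is a unit by
RA).  `Q.gp` is the range of `conj : H → MulAut H`, whose kernel is the centre; `H` is perfect (PFA), so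
`H` is finite by Schur (`Pool.Agent.Helper60.DZ2.Red_schur`).  For any `(A, s')` the universal map has
range containing `s'.gp`. -/
def StINA : Prop :=
  ∀ (p k : ℕ) (L : Type) [CommRing L] (x : Lˣ), RgA L p k x → FinP L x

end Pool.Agent.Helper50.AY
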