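import Pool.Agent.Helper50.AY.StB
import Pool.Agent.Helper41.DZ.CompSeries

/-! Assembly of project AY. -/

set_option autoImplicit false
set_option linter.unusedSimpArgs false

namespace Pool.Agent.Helper50.AY

open Pool.Agent.Helper43.GD

theorem finQ (hCA : Helper43.AX.StCA) (hEX : Helper43.AX.StEX) (hSG : Helper43.AX.StSG)
    (hGR : Helper43.AX.StGR) (hFR : Helper43.AX.StFR) (hID : Helper43.AX.StID)
    (hKL : Helper43.AX.StKL) (hQT : Helper43.AX.StQT) (hPF : Helper43.AX.StPF)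
    (hFI : Helper43.AX.StFI) (hPRQ : StPRQ) (hLBQ : StLBQ) (hINA : StINA) : StFinQ := by
  intro p n k hp h5 hk G _ a' b' t hrel hcl
  have hp0 : 0 < p := hp.pos
  have hq0 : 0 < p ^ (p ^ n) := pow_pos hp0 _
  obtain ⟨a, b, l, hR, hcl'⟩ := hPRQ p (p ^ (p ^ n)) k hp0 hq0 hk G a' b' t hrel hcl
  have hcomm := hCA G ((p ^ (p ^ n)) ^ 2) a t l hR.la hR.lt hR.S
  obtain ⟨L, _, x, E, hadd, hinj, hone, htE, hgn, hxm⟩ :=
    hEX G ((p ^ (p ^ n)) ^ 2) a t (pow_pos hq0 2) hcomm hR.S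
  obtain ⟨σ, hRd⟩ := hSG G ((p ^ (p ^ n)) ^ 2) a t l L x E hR.la hR.lt hadd hinj hone htE hgn hxm
  have hCx : Helper43.AX.Cx p (p ^ (p ^ n)) a b t l x E σ := ⟨hR, hRd⟩
  obtain ⟨I, hI, hσ, _⟩ := hID p (p ^ (p ^ n)) G a b t l L x E σ hCx
  have m1 := (hI _).2 (hGR p (p ^ (p ^ n)) G a b t l L x E σ hCx)
  have m2 := (hI _).2 (hFR p (p ^ (p ^ n)) G a b t l L x E σ hCx)
  obtain ⟨hpI, hxI⟩ := hKL p (p ^ n) (p ^ (p ^ n)) hp rfl L x σ I hxm hRd.sx hσ m1 m2
  have hch : ((p : ℕ) : L ⧸ I) = 0 := by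
    rw [← map_natCast (Ideal.Quotient.mk I)]
    exact Ideal.Quotient.eq_zero_iff_mem.2 hpI
  have hgn' : Gn ((Units.map (Ideal.Quotient.mk I).toMonoidHom x : (L ⧸ I)ˣ) : L ⧸ I) := by
    intro N h1 h2 y
    obtain ⟨y, rfl⟩ := Ideal.Quotient.mk_surjective y
    refine hgn (N.comap (Ideal.Quotient.mk I).toAddMonoidHom) ?_ ?_ y
    · change Ideal.Quotient.mk I 1 ∈ N
      rw [map_one]
      exact h1
    · intro z hz
      change Ideal.Quotient.mk I ((x : L) * z) ∈ N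
      rw [map_mul]
      exact h2 _ hz
  have hRg : RgA (L ⧸ I) p n (Units.map (Ideal.Quotient.mk I).toMonoidHom x) := by
    apply hLBQ p n hp h5 (L ⧸ I) _ hch _ _ hgn'
    · change (Ideal.Quotient.mk I (x : L)) ^ ((p ^ (p ^ n)) ^ 2) = Ideal.Quotient.mk I (x : L) + 1
      rw [← map_pow, hxm, map_add, map_one]
    · change (Ideal.Quotient.mk I (x : L)) ^ ((p ^ (p ^ n)) ^ p) = Ideal.Quotient.mk I (x : L)
      rw [← map_pow]
      exact (Ideal.Quotient.eq).2 hxI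
  have hF := hINA p n (L ⧸ I) _ hRg
  have hfin := hQT p (p ^ (p ^ n)) G a b t l L x E σ hCx hcl' I hI hpI hxI hF
  have hperf := hPF p (p ^ n) (p ^ (p ^ n)) hp rfl (by omega) G a b t l L x E σ hCx hcl'
  exact hFI p (p ^ (p ^ n)) hp0 G a b t l L x E σ hCx hcl' hperf hfin

open Pool.Agent.Helper41.DZ

section free

/-- generators -/
def ga : FreeGroup (Fin 3) := FreeGroup.of 0
def gb : FreeGroup (Fin 3) := FreeGroup.of 1
def gt : FreeGroup (Fin 3) := FreeGroup.of 2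

/-- `a₀` in the free group -/
def g0 (k : ℤ) : FreeGroup (Fin 3) := ga * ((ga * gb) ^ 3) ^ (-k)

/-- the three relators -/
def r1 : FreeGroup (Fin 3) := (ga * gb * ga) * (gb * ga * gb)⁻¹

def r2 (q : ℕ) : FreeGroup (Fin 3) :=
  ((ga * gb * ga)⁻¹ * gt * (ga * gb * ga)) * ((gt ^ q)⁻¹)⁻¹

def r3 (q : ℕ) (k : ℤ) : FreeGroup (Fin 3) :=
  cj (g0 k) gt ((q ^ 2 : ℕ) : ℤ) * (g0 k * cj (g0 k) gt 1)⁻¹

theorem map_cj {G H : Type} [Group G] [Group H] (f : G →* H) (a t : G) (i : ℤ) :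
    f (cj a t i) = cj (f a) (f t) i := by
  unfold cj
  rw [map_mul, map_mul, map_zpow, map_zpow]

/-- exponent sums -/
def sumT : FreeGroup (Fin 3) →* Multiplicative ℤ :=
  FreeGroup.lift ![1, 1, Multiplicative.ofAdd 1]

def sumA : FreeGroup (Fin 3) →* Multiplicative ℤ :=
  FreeGroup.lift ![Multiplicative.ofAdd 1, Multiplicative.ofAdd 1, 1]

def sumD : FreeGroup (Fin 3) →* Multiplicative ℤ :=
  FreeGroup.lift ![Multiplicative.ofAdd 1, 1, 1]

theorem sumT_a : sumT ga = 1 := by simp [sumT, ga]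
theorem sumT_b : sumT gb = 1 := by simp [sumT, gb]
theorem sumT_t : sumT gt = Multiplicative.ofAdd 1 := by simp [sumT, gt]
theorem sumA_a : sumA ga = Multiplicative.ofAdd 1 := by simp [sumA, ga]
theorem sumA_b : sumA gb = Multiplicative.ofAdd 1 := by simp [sumA, gb]
theorem sumA_t : sumA gt = 1 := by simp [sumA, gt]

theorem sumT_r1 : sumT r1 = 1 := by
  simp [r1, map_mul, map_inv, sumT_a, sumT_b]

theorem sumT_r2 (q : ℕ) : sumT (r2 q) = Multiplicative.ofAdd ((q : ℤ) + 1) := by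
  simp only [r2, map_mul, map_inv, map_pow, sumT_a, sumT_b, sumT_t, one_mul, mul_one, inv_one,
    inv_inv]
  rw [← ofAdd_nsmul, ← ofAdd_add]
  congr 1
  simp
  ring

theorem sumT_r3 (q : ℕ) (k : ℤ) : sumT (r3 q k) = 1 := by
  simp only [r3, g0, map_mul, map_inv, map_cj, map_pow, map_zpow, sumT_a, sumT_b, sumT_t, cj]
  simp

theorem sumA_r1 : sumA r1 = 1 := by
  simp only [r1, map_mul, map_inv, sumA_a, sumA_b]
  simp

theorem sumA_r3 (q : ℕ) (k : ℤ) : sumA (r3 q k) = Multiplicative.ofAdd (6 * k - 1) := by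
  simp only [r3, g0, map_mul, map_inv, map_cj, map_pow, map_zpow, sumA_a, sumA_b, sumA_t, cj]
  apply Multiplicative.toAdd.injective
  simp
  ring

/-- the set of relators -/
noncomputable def rels (q : ℕ) (k : ℤ) : Finset (FreeGroup (Fin 3)) := by
  classical exact {r1, r2 q, r3 q k}

theorem rels_card (q : ℕ) (k : ℤ) : (rels q k).card = 3 := by
  classical
  have h12 : r1 ≠ r2 q := by
    intro h
    have := congrArg sumT h
    rw [sumT_r1, sumT_r2] at this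
    have h' : (0 : ℤ) = (q : ℤ) + 1 := Multiplicative.ofAdd.injective this
    omega
  have h13 : r1 ≠ r3 q k := by
    intro h
    have := congrArg sumA h
    rw [sumA_r1, sumA_r3] at this
    have h' : (0 : ℤ) = 6 * k - 1 := Multiplicative.ofAdd.injective this
    omega
  have h23 : r2 q ≠ r3 q k := by
    intro h
    have := congrArg sumT h
    rw [sumT_r2, sumT_r3] at this
    have h' : (q : ℤ) + 1 = 0 := Multiplicative.ofAdd.injective this
    omega
  rw [rels]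
  convert Finset.card_eq_three.2 ⟨r1, r2 q, r3 q k, h12, h13, h23, rfl⟩

theorem mem_rels {q : ℕ} {k : ℤ} (w : FreeGroup (Fin 3)) :
    w ∈ (rels q k : Set (FreeGroup (Fin 3))) ↔ w = r1 ∨ w = r2 q ∨ w = r3 q k := by
  classical
  simp [rels]

theorem rel_iff {G : Type} [Group G] (f : FreeGroup (Fin 3) →* G) (q : ℕ) (k : ℤ) :
    Rel3q q k (f ga) (f gb) (f gt) ↔ f r1 = 1 ∧ f (r2 q) = 1 ∧ f (r3 q k) = 1 := by
  unfold Rel3q
  have e1 : f r1 = 1 ↔ f ga * f gb * f ga = f gb * f ga * f gb := by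
    rw [r1, map_mul, map_inv, mul_inv_eq_one]
    simp only [map_mul]
  have e2 : f (r2 q) = 1 ↔ (f ga * f gb * f ga)⁻¹ * f gt * (f ga * f gb * f ga) =
      (f gt ^ q)⁻¹ := by
    rw [r2, map_mul, map_inv, mul_inv_eq_one]
    simp only [map_mul, map_inv, map_pow]
  have e3 : f (r3 q k) = 1 ↔ cj (f ga * ((f ga * f gb) ^ 3) ^ (-k)) (f gt) ((q ^ 2 : ℕ) : ℤ) =
      (f ga * ((f ga * f gb) ^ 3) ^ (-k)) * cj (f ga * ((f ga * f gb) ^ 3) ^ (-k)) (f gt) 1 := by
    rw [r3, map_mul, map_inv, mul_inv_eq_one]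
    simp only [g0, map_mul, map_cj, map_pow, map_zpow]
  rw [e1, e2, e3]

end free

theorem main (hFin : StFinQ) (hTG : StTGQ) (p : ℕ) [hF : Fact p.Prime] (h5 : 5 ≤ p) (n : ℕ) :
    ∃ (G : Type) (_ : Group G), Finite G ∧ DeficiencyZero G ∧
      IsCompositionFactor
        (Matrix.ProjectiveSpecialLinearGroup (Fin 2) (GaloisField p (p ^ (n + 1)))) G := by
  have hp := hF.out
  obtain ⟨k, hk⟩ : ∃ k : ℤ, (6 * k - 1).natAbs = p := by
    have h2 : p % 2 = 1 := by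
      rcases hp.eq_two_or_odd with h | h
      · omega
      · exact h
    have h3 : p % 3 ≠ 0 := by
      intro h
      have := (Nat.prime_dvd_prime_iff_eq Nat.prime_three hp).1 (Nat.dvd_of_mod_eq_zero h)
      omega
    have h6 : p % 6 = 1 ∨ p % 6 = 5 := by omega
    rcases h6 with h | h
    · exact ⟨-((p / 6 : ℕ) : ℤ), by omega⟩
    · exact ⟨((p / 6 : ℕ) : ℤ) + 1, by omega⟩
  let q := p ^ (p ^ n)
  let R := rels q k
  let G := PresentedGroup (R : Set (FreeGroup (Fin 3)))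
  let π : FreeGroup (Fin 3) →* G := PresentedGroup.mk (R : Set (FreeGroup (Fin 3)))
  have hrel : Rel3q q k (π ga) (π gb) (π gt) := by
    rw [rel_iff]
    exact ⟨PresentedGroup.one_of_mem ((mem_rels _).2 (Or.inl rfl)),
      PresentedGroup.one_of_mem ((mem_rels _).2 (Or.inr (Or.inl rfl))),
      PresentedGroup.one_of_mem ((mem_rels _).2 (Or.inr (Or.inr rfl)))⟩
  have hgen : Subgroup.closure {π ga, π gb, π gt} = (⊤ : Subgroup G) := by
    rw [← PresentedGroup.closure_range_of (R : Set (FreeGroup (Fin 3)))]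
    congr 1
    ext g
    constructor
    · rintro (rfl | rfl | rfl)
      · exact ⟨0, rfl⟩
      · exact ⟨1, rfl⟩
      · exact ⟨2, rfl⟩
    · rintro ⟨b, rfl⟩
      fin_cases b
      · exact Or.inl rfl
      · exact Or.inr (Or.inl rfl)
      · exact Or.inr (Or.inr rfl)
  have hfin : Finite G := hFin p n k hp h5 hk G (π ga) (π gb) (π gt) hrel hgen
  have hdef : DeficiencyZero G :=
    ⟨Fin 3, inferInstance, R, by rw [rels_card]; rfl, ⟨MulEquiv.refl _⟩⟩
  obtain ⟨T, _, a, b, t, hrelT, hTr⟩ := hTG p n k h5 hk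
  let ρ : FreeGroup (Fin 3) →* T := FreeGroup.lift ![a, b, t]
  have ρa : ρ ga = a := by simp [ρ, ga]
  have ρb : ρ gb = b := by simp [ρ, gb]
  have ρt : ρ gt = t := by simp [ρ, gt]
  have hρ := (rel_iff ρ q k).1 (by rw [ρa, ρb, ρt]; exact hrelT)
  have hrels : ∀ w' ∈ (R : Set (FreeGroup (Fin 3))), FreeGroup.lift ![a, b, t] w' = 1 := by
    intro w' hw'
    rcases (mem_rels w').1 hw' with rfl | rfl | rfl
    · exact hρ.1
    · exact hρ.2.1
    · exact hρ.2.2
  let φ : G →* T := PresentedGroup.toGroup hrels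
  have hφ : ∀ i : Fin 3, φ (PresentedGroup.of i) = ![a, b, t] i := fun i =>
    PresentedGroup.toGroup.of hrels (x := i)
  obtain ⟨L, hL, f', hf'⟩ := hTr G φ (π ga) (π gb) (π gt) (hφ 0) (hφ 1) (hφ 2) hgen
  have hcard : 4 ≤ Nat.card (GaloisField p (p ^ (n + 1))) := by
    rw [GaloisField.card p (p ^ (n + 1)) (pow_pos hp.pos _).ne']
    calc 4 ≤ p := by omega
      _ = p ^ 1 := (pow_one p).symm
      _ ≤ p ^ (p ^ (n + 1)) := Nat.pow_le_pow_right hp.pos (pow_pos hp.pos _)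
  exact ⟨G, inferInstance, hfin, hdef,
    factor_of_section _ (Matrix.ProjectiveSpecialLinearGroup.rank_two_simple hcard) _ G rfl L hL f'
      hf'⟩

end Pool.Agent.Helper50.AY
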