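import Pool.Agent.Helper2.AY.M_UT1
import Pool.Agent.Helper21.AY.M_RA
import Pool.Agent.Helper22.AY.M_FLD
import Pool.Agent.Helper30.AY.M_GT
import Pool.Agent.Helper37.AY.M_CU
import Pool.Agent.Helper39.AY.M_TA
import Pool.Agent.Helper40.AY.M_UT
import Pool.Agent.Helper41.AY.M_INA
import Pool.Agent.Helper42.AY.M_SDA
import Pool.Agent.Helper48.AY.M_POL
import Pool.Agent.Helper5.AY.M_SPL
import Pool.Agent.Helper51.AY.M_PFA
import Pool.Agent.Helper64.AY.M_AUA
import Pool.Agent.Helper66.AY.M_UT2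
import Pool.Agent.Helper67.AY.M_WMA
import Pool.Agent.Helper72.AY.M_UNA
import Pool.Agent.Helper75.AY.M_CMB2
import Pool.Agent.Helper76.AY.M_UT3
import Pool.Agent.Helper80.AY.M_SEA
import Pool.Agent.Helper81.AY.M_PRQ
import Pool.Agent.Helper82.AY.M_EV
import Pool.Agent.Helper89.AY.M_ND
import Pool.Agent.Helper94.AY.M_MXI
import Pool.Agent.Helper95.AY.M_UN1
import Pool.Agent.Helper97.AY.M_SPG
import Pool.Agent.Helper53.AY.M_LBQ
import Pool.Agent.Helper24.AY.M_TGQ
import Pool.Agent.Helper94.AX.M_CA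
import Pool.Agent.Helper2.AX.M_EX
import Pool.Agent.Helper24.AX.M_SG
import Pool.Agent.Helper66.AX.M_XP
import Pool.Agent.Helper22.AX.M_VC
import Pool.Agent.Helper26.AX.M_PT
import Pool.Agent.Helper9.AX.M_GR
import Pool.Agent.Helper30.AX.M_FR
import Pool.Agent.Helper37.AX.M_ID
import Pool.Agent.Helper99.AX.M_KL
import Pool.Agent.Helper87.AX.M_CE
import Pool.Agent.Helper53.AX.M_HN
import Pool.Agent.Helper40.AX.M_QT
import Pool.Agent.Helper42.AX.M_PF
import Pool.Agent.Helper21.AX.M_FI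
import Pool.Agent.Helper43.GD.All
import Pool.Agent.Helper50.AY.Asm

/-! Project AY: all modules together. -/

set_option autoImplicit false

namespace Pool.Agent.Helper50.AY

open Pool.Agent

theorem pRA : StRA := Helper21.AY.hRA
theorem pEV : StEV := Helper82.AY.hEV
theorem pND : StND := Helper89.AY.hND
theorem pUN1 : StUN1 := Helper95.AY.hUN1 pND
theorem pCMB2 : StCMB2 := Helper75.AY.hCMB2 Helper43.GD.pP3
theorem pGT : StGT := Helper30.AY.hGT Helper43.GD.pP2 pCMB2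
theorem pCU : StCU := Helper37.AY.hCU Helper43.GD.pP1 pGT pRA
theorem pUT1 : StUT1 := Helper2.AY.hUT1 Helper43.GD.pP1
theorem pUT2 : StUT2 := Helper66.AY.hUT2 pUT1
theorem pUT3 : StUT3 := Helper76.AY.hUT3 pUT2 pGT pND pUN1 pRA
theorem pUT : StUT := Helper40.AY.hUT pCU pUT3 pRA
theorem pSPL : StSPL := Helper5.AY.hSPL Helper43.GD.pRR
theorem pPOL : StPOL := Helper48.AY.hPOL
theorem pMXI : StMXI := Helper94.AY.hMXI pRA pEV pUN1
theorem pSDA : StSDA := Helper42.AY.hSDA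
theorem pFLD : StFLD := Helper22.AY.hFLD pUT pMXI pEV
theorem pUNA : StUNA := Helper72.AY.hUNA
theorem pPFA : StPFA := Helper51.AY.hPFA
theorem pWMA : StWMA := Helper67.AY.hWMA
theorem pAUA : StAUA := Helper64.AY.hAUA pUNA pPFA pWMA Helper43.GD.pCT
theorem pTA : StTA := Helper39.AY.hTA

theorem xCA : Helper43.AX.StCA := Helper94.AX.hCA
theorem xEX : Helper43.AX.StEX := Helper2.AX.hEX
theorem xSG : Helper43.AX.StSG := Helper24.AX.hSG
theorem xXP : Helper43.AX.StXP := Helper66.AX.hXP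
theorem xVC : Helper43.AX.StVC := Helper22.AX.hVC
theorem xPT : Helper43.AX.StPT := Helper26.AX.hPT xVC
theorem xGR : Helper43.AX.StGR := Helper9.AX.hGR xPT xVC
theorem xFR : Helper43.AX.StFR := Helper30.AX.hFR xPT xVC xXP
theorem xID : Helper43.AX.StID := Helper37.AX.hID
theorem xKL : Helper43.AX.StKL := Helper99.AX.hKL xXP
theorem xCE : Helper43.AX.StCE := Helper87.AX.hCE xVC xID
theorem xHN : Helper43.AX.StHN := Helper53.AX.hHN xVC
theorem xQT : Helper43.AX.StQT := Helper40.AX.hQT xVC xCE xHN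
theorem xPF : Helper43.AX.StPF := Helper42.AX.hPF xVC xHN xXP
theorem xFI : Helper43.AX.StFI := Helper21.AX.hFI xHN

theorem pPRQ : StPRQ := Helper81.AY.hPRQ xCA

theorem pSPG : StSPG := Helper97.AY.hSPG pSPL pPOL pMXI pUT pRA pEV
theorem pSEA : StSEA := Helper80.AY.hSEA pSPG pSDA
theorem pLBQ : StLBQ := Helper53.AY.hLBQ
theorem pTGQ : StTGQ := Helper24.AY.hTGQ pTA

theorem pINA : StINA :=
  Helper41.AY.hINA Helper43.GD.pHAT Helper43.GD.pCEL pPFA pAUA pSEA pFLD pRA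

theorem pFinQ : StFinQ :=
  finQ xCA xEX xSG xGR xFR xID xKL xQT xPF xFI pPRQ pLBQ pINA

end Pool.Agent.Helper50.AY
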