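import Pool.Agent.Helper50.AY.St
import Pool.Agent.Helper43.AX.St

/-!
PROJECT AY, bridge to the group part of project AX (`Pool/Agent/Helper43/AX/St.lean`, for general `q`),
here `q = p^(p^n)`, and the target group.

All modules are INDEPENDENT (the statements they use are hypotheses).  In a module file:
`import Pool.Agent.Helper50.AY.StB`.
-/

set_option autoImplicit false

namespace Pool.Agent.Helper50.AY

open Pool.Agent.Helper43.GD Polynomial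

/-- The three relations of the presentation (`κ = (a'b')³`, `a₀ = a' κ^(-k)`). -/
def Rel3q {G : Type} [Group G] (q : ℕ) (k : ℤ) (a' b' t : G) : Prop :=
  a' * b' * a' = b' * a' * b' ∧
  (a' * b' * a')⁻¹ * t * (a' * b' * a') = (t ^ q)⁻¹ ∧
  cj (a' * ((a' * b') ^ 3) ^ (-k)) t ((q ^ 2 : ℕ) : ℤ) =
    (a' * ((a' * b') ^ 3) ^ (-k)) * cj (a' * ((a' * b') ^ 3) ^ (-k)) t 1

/-- MODULE PRQ (150 lines, uses Helper43.AX.StCA; the module PR of project AX with `q` in place of `p`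
in the exponents).  PROOF.  `w' = a'b'a'`, `κ = (a'b')³ = w'²` commutes with `a', b'` (braid relation).
`κ⁻¹ t κ = w'⁻¹(w'⁻¹tw')w' = w'⁻¹ t^(-q) w' = t^(q²)`; `κ^(-j) t κ^j = t^(q^(2j))` for `j ≥ 0`.
`a₀ = a'κ^(-k)`, `b₀ = b'κ^(-k)`; `a₀b₀a₀ = w' κ^(-3k) = b₀a₀b₀`.  By CA (`m = q²`, `l = κ`) all
`cj a₀ t i` commute.
Case `6k-1 = -p` (`k ≤ 0`): `a = a₀, b = b₀, l = κ`: `v = w'κ^(-3k)`; `v⁻¹tv = κ^(3k)(w'⁻¹tw')κ^(-3k) =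
κ^(3k) t^(-q) κ^(-3k) = t^(-q·q^(-6k)) = t^(-q^(1-6k)) = t^(-q^p)`; `v² = w'²κ^(-6k) = κ^(1-6k) = κ^p`.
Case `6k-1 = p` (`k > 0`): `a = a₀⁻¹, b = b₀⁻¹, l = κ`: `v = aba = (a₀b₀a₀)⁻¹ = κ^(3k) w'⁻¹`;
`v⁻¹tv = w' κ^(-3k) t κ^(3k) w'⁻¹ = w' t^(q^(6k)) w'⁻¹`; from `w'⁻¹tw' = t^(-q)`: `w' t^q w'⁻¹ = t⁻¹`, so
it is `(t⁻¹)^(q^(6k-1)) = t^(-q^p)`; `v² = κ^(6k) w'⁻² = κ^(6k-1) = κ^p`.  `S` for `a₀⁻¹`:
`cj a₀⁻¹ t m = (a₀ · cj a₀ t 1)⁻¹ = a₀⁻¹ (cj a₀ t 1)⁻¹` since `a₀` and `cj a₀ t 1` commute.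
Closure: `a' = a₀ κ^k`, `b' = b₀κ^k`. -/
def StPRQ : Prop :=
  ∀ (p q : ℕ) (k : ℤ), 0 < p → 0 < q → (6 * k - 1).natAbs = p → ∀ (G : Type) [Group G]
    (a' b' t : G), Rel3q q k a' b' t → Subgroup.closure {a', b', t} = (⊤ : Subgroup G) →
    ∃ a b l : G, Pool.Agent.Helper43.AX.Rel p q a b t l ∧
      Subgroup.closure {a, b, t, l} = (⊤ : Subgroup G)

/-- MODULE LBQ (80 lines, ring theory).  `q = p^(p^n)`.  PROOF.  `L` is spanned over `ℤ/p` by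
`1, x, ..., x^(q²-1)` (`x^(q²) = x + 1`, `Gn x`: this span is an additive subgroup with `1`, stable under `x`),
so it is finite.  `θ(y) = y^q` is a ring homomorphism (characteristic `p`; trivial ring separately) fixing
natural numbers, `θ²(x) = x + 1`, so `θ^(2j)(x) = x + j`; `θ^p(x) = x^(q^p) = x`; `p + 1 = 2j`:
`θ(x) = θ^(p+1)(x) = x + j` and `2j = p + 1 = 1` in `L`. -/
def StLBQ : Prop :=
  ∀ (p n : ℕ), p.Prime → 5 ≤ p → ∀ (L : Type) [CommRing L] (x : Lˣ), (p : L) = 0 →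
    (x : L) ^ ((p ^ (p ^ n)) ^ 2) = (x : L) + 1 → (x : L) ^ ((p ^ (p ^ n)) ^ p) = (x : L) →
    Gn (x : L) → RgA L p n x

/-- MODULE TA (130 lines).  `K = GaloisField p m`, `m = p^(n+1)`, `b = p^n`, `q = p^b`, `θ(y) = y^q`.
PROOF.  `θ` is a field automorphism, `θ^p(y) = y^(p^m) = y`.  Existence of `x` with `θ x = x + 1/2`, one of
two ways.  (a) `D(y) = θ y - y` is additive with kernel of order `≤ q` (roots of `X^q - X`), so its image has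
at least `p^m / q = q^(p-1)` elements; the image is contained in the kernel of
`Tr(y) = y + y^q + ... + y^(q^(p-1))` (`Tr(θy) = Tr y`), which has at most `q^(p-1)` elements (degree); so
they are equal, and `Tr(1/2) = p/2 = 0`.  (b) `D^p = θ^p - 1 = 0` (characteristic `p`, commuting), `D ≠ 0`;
`j ≥ 1` maximal with `D^j ≠ 0`, `z₀ = D^j y₀ ≠ 0`, `y₁ = D^(j-1) y₀`, `D y₁ = z₀`, `θ z₀ = z₀`,
`x = y₁/(2z₀)`.
`x ≠ 0` as `θ 0 = 0 ≠ 1/2`.  `Gn x`: the additive subgroup generated by the powers of `x` is the subfield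
`F_p(x)` of degree `j ∣ m = p^(n+1)`; if `j ≠ m` then `j ∣ p^n = b` and `x^(p^b) = x`, a contradiction; so
`F_p(x) = K`. -/
def StTA : Prop :=
  ∀ (p : ℕ) [Fact p.Prime] (n : ℕ), 5 ≤ p →
    ∃ x : (GaloisField p (p ^ (n + 1)))ˣ,
      2 * (x : GaloisField p (p ^ (n + 1))) ^ (p ^ (p ^ n)) =
        2 * (x : GaloisField p (p ^ (n + 1))) + 1 ∧
      Gn (x : GaloisField p (p ^ (n + 1)))

/-- MODULE TGQ (200 lines, uses TA; the module TG of project AX for `K = GaloisField p (p^(n+1))`,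
`q = p^(p^n)`; compare `Pool/Agent/Helper11/GD/M_TG.lean`).
PROOF.  `S = SL(2,K)`, `T = MulAut S`.  `c : S → T` conjugation, with kernel the centre of `S`, so
`c(S) ≅ PSL(2,K)`, normal in `T` (`φ c(g) φ⁻¹ = c(φ g)`).  `θ ∈ T`: `y ↦ y^q` on the entries, `θ^p = 1`
(`q^p = p^(p^(n+1))`).  `E(y) = [1 y; 0 1]`, `F(y) = [1 0; y 1]`, `w₀ = E(1)F(-1)E(1) = [0 1; -1 0]`,
`(E(1)F(-1))³ = ±1`.  `τ ∈ T`: `[α β; γ δ] ↦ [α x⁻¹β; xγ δ]`, so `τ⁻¹(E(y)) = E(xy)`,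
`τ⁻¹(F(y)) = F(x⁻¹y)`; `x ≠ 0`.  `p ≠ 3`: choose `α : ℤ` with `3α ≡ 1 mod p`, `Φ = θ^(-α)`;
`a' = c(E(1)) Φ`, `b' = c(F(-1)) Φ`, `t = τ`.  `Φ` commutes with `c(E(1)), c(F(-1)), c(w₀)`.
`a'b'a' = c(w₀)Φ³ = b'a'b'`; `κ = (a'b')³ = Φ⁶`.  `Φ³ = θ⁻¹` (as `θ^p = 1`),
`c(w₀)⁻¹ τ c(w₀) = τ⁻¹`, `θ τ θ⁻¹ = τ^q`: `(a'b'a')⁻¹ t (a'b'a') = Φ⁻³ τ⁻¹ Φ³ = θ τ⁻¹ θ⁻¹ = τ^(-q)`.
`a' κ^(-k) = c(E(1)) Φ^(1-6k) = c(E(1))`, since `p ∣ 6k-1`.  `t⁻ⁱ c(E(1)) tⁱ = c(τ⁻ⁱ(E(1))) = c(E(xⁱ))`, and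
`x^(q²) = x+1` (from `2x^q = 2x + 1`: apply `θ`: `2x^(q²) = 2x^q + 1 = 2x + 2`).
Let `f : G → T`, `G` generated by `ga, gb, gt ↦ a', b', t`.  The range contains `κ = Φ⁶`, hence
`Φ` (its order divides `p`, prime to 6), `c(E(1))`, `c(F(-1))`, `c(w₀)`, `c(E(xⁱ))`, hence `c(E(y))` for all
`y ∈ K` (`Gn x`, TA), hence `c(S)` (transvections generate).  `Lc = f⁻¹(c(S))` is normal and maps onto
`c(S) ≅ PSL(2,K)`. -/
def StTGQ : Prop :=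
  ∀ (p : ℕ) [Fact p.Prime] (n : ℕ) (k : ℤ), 5 ≤ p → (6 * k - 1).natAbs = p →
    ∃ (T : Type) (_ : Group T) (a' b' t : T), Rel3q (p ^ (p ^ n)) k a' b' t ∧
      ∀ (G : Type) [Group G] (f : G →* T) (ga gb gt : G), f ga = a' → f gb = b' → f gt = t →
        Subgroup.closure {ga, gb, gt} = (⊤ : Subgroup G) →
        ∃ Lc : Subgroup G, Lc.Normal ∧
          ∃ f' : Lc →* Matrix.ProjectiveSpecialLinearGroup (Fin 2) (GaloisField p (p ^ (n + 1))),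
            Function.Surjective f'

/-- (own module) finiteness -/
def StFinQ : Prop :=
  ∀ (p n : ℕ) (k : ℤ), p.Prime → 5 ≤ p → (6 * k - 1).natAbs = p → ∀ (G : Type) [Group G]
    (a' b' t : G), Rel3q (p ^ (p ^ n)) k a' b' t →
    Subgroup.closure {a', b', t} = (⊤ : Subgroup G) → Finite G

end Pool.Agent.Helper50.AY
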